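import Mathlib

set_option autoImplicit false

/-!
# A rectangle exchange of the unit square with a point that does not return
-/

namespace Pool.Agent.RectEx

/-! ### The counterexample

Fix an irrational `t` with `0 < t < 1` and put `c = (1 - t) / 2`.  The unit square is cut into two
sheets `[0, 1/2) × [0, 1)` and `[1/2, 1) × [0, 1)`.  Each sheet is a torus
`(ℝ / (1/2) ℤ) × (ℝ / ℤ)`, on which the map is the translation by `(t / 2, - t)`, except that the
points of the rectangle `[c, 1/2) × [t, 1)` (and of its copy in the other sheet) also change sheet.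
The point `(c, t)` changes sheet at time one, and then stays in the second sheet for ever. -/

/-- The rectangle exchange map. -/
noncomputable def T (t : ℝ) (p : ℝ × ℝ) : ℝ × ℝ :=
  if p.1 < 1 / 2 then
    if p.1 < (1 - t) / 2 then
      if p.2 < t then (p.1 + t / 2, p.2 + (1 - t)) else (p.1 + t / 2, p.2 + (-t))
    else
      if p.2 < t then (p.1 + (t - 1) / 2, p.2 + (1 - t))
      else (p.1 + ((t - 1) / 2 + 1 / 2), p.2 + (-t))
  else
    if p.1 < 1 / 2 + (1 - t) / 2 then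
      if p.2 < t then (p.1 + t / 2, p.2 + (1 - t)) else (p.1 + t / 2, p.2 + (-t))
    else
      if p.2 < t then (p.1 + (t - 1) / 2, p.2 + (1 - t))
      else (p.1 + ((t - 1) / 2 - 1 / 2), p.2 + (-t))

noncomputable def A1 (t : ℝ) : Fin 8 → ℝ :=
  ![0, 0, (1 - t) / 2, (1 - t) / 2, 1 / 2, 1 / 2, 1 / 2 + (1 - t) / 2, 1 / 2 + (1 - t) / 2]
noncomputable def B1 (t : ℝ) : Fin 8 → ℝ :=
  ![(1 - t) / 2, (1 - t) / 2, 1 / 2, 1 / 2, 1 / 2 + (1 - t) / 2, 1 / 2 + (1 - t) / 2, 1, 1]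
noncomputable def A2 (t : ℝ) : Fin 8 → ℝ := ![t, 0, 0, t, t, 0, 0, t]
noncomputable def B2 (t : ℝ) : Fin 8 → ℝ := ![1, t, t, 1, 1, t, t, 1]
noncomputable def V1 (t : ℝ) : Fin 8 → ℝ :=
  ![t / 2, t / 2, (t - 1) / 2, (t - 1) / 2 + 1 / 2, t / 2, t / 2, (t - 1) / 2, (t - 1) / 2 - 1 / 2]
noncomputable def V2 (t : ℝ) : Fin 8 → ℝ := ![-t, 1 - t, 1 - t, -t, -t, 1 - t, 1 - t, -t]

lemma disj1 {t : ℝ} (h0 : 0 < t) (h1 : t < 1) :
    Pairwise (fun r s : Fin 8 =>
      Disjoint (Set.Ico (A1 t r) (B1 t r) ×ˢ Set.Ico (A2 t r) (B2 t r))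
        (Set.Ico (A1 t s) (B1 t s) ×ˢ Set.Ico (A2 t s) (B2 t s))) := by
  intro r s hrs
  rw [Set.disjoint_left]
  rintro ⟨x, y⟩ hx hy
  simp only [Set.mem_prod, Set.mem_Ico] at hx hy
  obtain ⟨⟨hx1, hx2⟩, hx3, hx4⟩ := hx
  obtain ⟨⟨hy1, hy2⟩, hy3, hy4⟩ := hy
  fin_cases r <;> fin_cases s <;>
    simp [A1, A2, B1, B2] at hrs hx1 hx2 hx3 hx4 hy1 hy2 hy3 hy4 <;> linarith

lemma disj2 {t : ℝ} (h0 : 0 < t) (h1 : t < 1) :
    Pairwise (fun r s : Fin 8 =>
      Disjoint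
        (Set.Ico (A1 t r + V1 t r) (B1 t r + V1 t r) ×ˢ
          Set.Ico (A2 t r + V2 t r) (B2 t r + V2 t r))
        (Set.Ico (A1 t s + V1 t s) (B1 t s + V1 t s) ×ˢ
          Set.Ico (A2 t s + V2 t s) (B2 t s + V2 t s))) := by
  intro r s hrs
  rw [Set.disjoint_left]
  rintro ⟨x, y⟩ hx hy
  simp only [Set.mem_prod, Set.mem_Ico] at hx hy
  obtain ⟨⟨hx1, hx2⟩, hx3, hx4⟩ := hx
  obtain ⟨⟨hy1, hy2⟩, hy3, hy4⟩ := hy
  fin_cases r <;> fin_cases s <;>
    simp [A1, A2, B1, B2, V1, V2] at hrs hx1 hx2 hx3 hx4 hy1 hy2 hy3 hy4 <;> linarith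

lemma union1 {t : ℝ} (h0 : 0 < t) (h1 : t < 1) :
    (⋃ r : Fin 8, Set.Ico (A1 t r) (B1 t r) ×ˢ Set.Ico (A2 t r) (B2 t r))
      = Set.Ico (0:ℝ) 1 ×ˢ Set.Ico (0:ℝ) 1 := by
  ext ⟨x, y⟩
  simp only [Set.mem_iUnion, Set.mem_prod, Set.mem_Ico]
  constructor
  · rintro ⟨r, ⟨hx1, hx2⟩, hx3, hx4⟩
    fin_cases r <;> simp [A1, A2, B1, B2] at hx1 hx2 hx3 hx4 <;>
      refine ⟨⟨?_, ?_⟩, ?_, ?_⟩ <;> linarith
  · rintro ⟨⟨hx0, hx1⟩, hy0, hy1⟩
    rcases lt_or_ge x (1 / 2) with hx | hx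
    · rcases lt_or_ge x ((1 - t) / 2) with hc | hc
      · rcases lt_or_ge y t with hy | hy
        · exact ⟨1, by simp [A1, A2, B1, B2]; refine ⟨⟨?_, ?_⟩, ?_, ?_⟩ <;> linarith⟩
        · exact ⟨0, by simp [A1, A2, B1, B2]; refine ⟨⟨?_, ?_⟩, ?_, ?_⟩ <;> linarith⟩
      · rcases lt_or_ge y t with hy | hy
        · exact ⟨2, by simp [A1, A2, B1, B2]; refine ⟨⟨?_, ?_⟩, ?_, ?_⟩ <;> linarith⟩
        · exact ⟨3, by simp [A1, A2, B1, B2]; refine ⟨⟨?_, ?_⟩, ?_, ?_⟩ <;> linarith⟩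
    · rcases lt_or_ge x (1 / 2 + (1 - t) / 2) with hc | hc
      · rcases lt_or_ge y t with hy | hy
        · exact ⟨5, by simp [A1, A2, B1, B2]; refine ⟨⟨?_, ?_⟩, ?_, ?_⟩ <;> linarith⟩
        · exact ⟨4, by simp [A1, A2, B1, B2]; refine ⟨⟨?_, ?_⟩, ?_, ?_⟩ <;> linarith⟩
      · rcases lt_or_ge y t with hy | hy
        · exact ⟨6, by simp [A1, A2, B1, B2]; refine ⟨⟨?_, ?_⟩, ?_, ?_⟩ <;> linarith⟩
        · exact ⟨7, by simp [A1, A2, B1, B2]; refine ⟨⟨?_, ?_⟩, ?_, ?_⟩ <;> linarith⟩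

lemma union2 {t : ℝ} (h0 : 0 < t) (h1 : t < 1) :
    (⋃ r : Fin 8, Set.Ico (A1 t r + V1 t r) (B1 t r + V1 t r) ×ˢ
        Set.Ico (A2 t r + V2 t r) (B2 t r + V2 t r))
      = Set.Ico (0:ℝ) 1 ×ˢ Set.Ico (0:ℝ) 1 := by
  ext ⟨x, y⟩
  simp only [Set.mem_iUnion, Set.mem_prod, Set.mem_Ico]
  constructor
  · rintro ⟨r, ⟨hx1, hx2⟩, hx3, hx4⟩
    fin_cases r <;> simp [A1, A2, B1, B2, V1, V2] at hx1 hx2 hx3 hx4 <;>
      refine ⟨⟨?_, ?_⟩, ?_, ?_⟩ <;> linarith
  · rintro ⟨⟨hx0, hx1⟩, hy0, hy1⟩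
    rcases lt_or_ge x (1 / 2) with hx | hx
    · rcases lt_or_ge x (t / 2) with hc | hc
      · rcases lt_or_ge y (1 - t) with hy | hy
        · exact ⟨7, by simp [A1, A2, B1, B2, V1, V2]; refine ⟨⟨?_, ?_⟩, ?_, ?_⟩ <;> linarith⟩
        · exact ⟨2, by simp [A1, A2, B1, B2, V1, V2]; refine ⟨⟨?_, ?_⟩, ?_, ?_⟩ <;> linarith⟩
      · rcases lt_or_ge y (1 - t) with hy | hy
        · exact ⟨0, by simp [A1, A2, B1, B2, V1, V2]; refine ⟨⟨?_, ?_⟩, ?_, ?_⟩ <;> linarith⟩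
        · exact ⟨1, by simp [A1, A2, B1, B2, V1, V2]; refine ⟨⟨?_, ?_⟩, ?_, ?_⟩ <;> linarith⟩
    · rcases lt_or_ge x (1 / 2 + t / 2) with hc | hc
      · rcases lt_or_ge y (1 - t) with hy | hy
        · exact ⟨3, by simp [A1, A2, B1, B2, V1, V2]; refine ⟨⟨?_, ?_⟩, ?_, ?_⟩ <;> linarith⟩
        · exact ⟨6, by simp [A1, A2, B1, B2, V1, V2]; refine ⟨⟨?_, ?_⟩, ?_, ?_⟩ <;> linarith⟩
      · rcases lt_or_ge y (1 - t) with hy | hy
        · exact ⟨4, by simp [A1, A2, B1, B2, V1, V2]; refine ⟨⟨?_, ?_⟩, ?_, ?_⟩ <;> linarith⟩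
        · exact ⟨5, by simp [A1, A2, B1, B2, V1, V2]; refine ⟨⟨?_, ?_⟩, ?_, ?_⟩ <;> linarith⟩

lemma T_eq {t : ℝ} (h0 : 0 < t) (h1 : t < 1) (r : Fin 8) (x : ℝ × ℝ)
    (hx : x ∈ Set.Ico (A1 t r) (B1 t r) ×ˢ Set.Ico (A2 t r) (B2 t r)) :
    T t x = (x.1 + V1 t r, x.2 + V2 t r) := by
  obtain ⟨x, y⟩ := x
  simp only [Set.mem_prod, Set.mem_Ico] at hx
  obtain ⟨⟨hx1, hx2⟩, hx3, hx4⟩ := hx
  fin_cases r <;> simp [A1, A2, B1, B2] at hx1 hx2 hx3 hx4 <;> unfold T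
  · rw [if_pos (by simp; linarith), if_pos (by simp; linarith), if_neg (by simp; linarith)]
    simp [V1, V2]
  · rw [if_pos (by simp; linarith), if_pos (by simp; linarith), if_pos (by simp; linarith)]
    simp [V1, V2]
  · rw [if_pos (by simp; linarith), if_neg (by simp; linarith), if_pos (by simp; linarith)]
    simp [V1, V2]
  · rw [if_pos (by simp; linarith), if_neg (by simp; linarith), if_neg (by simp; linarith)]
    simp [V1, V2]
  · rw [if_neg (by simp; linarith), if_pos (by simp; linarith), if_neg (by simp; linarith)]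
    simp [V1, V2]
  · rw [if_neg (by simp; linarith), if_pos (by simp; linarith), if_pos (by simp; linarith)]
    simp [V1, V2]
  · rw [if_neg (by simp; linarith), if_neg (by simp; linarith), if_pos (by simp; linarith)]
    simp [V1, V2]
  · rw [if_neg (by simp; linarith), if_neg (by simp; linarith), if_neg (by simp; linarith)]
    simp [V1, V2]

/-- From time one on, the orbit of `(c, t)` stays in the second sheet. -/
lemma orbit {t : ℝ} (ht : Irrational t) (h0 : 0 < t) (h1 : t < 1) (n : ℕ) :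
    (T t)^[n + 1] ((1 - t) / 2, t) =
      (1 / 2 + Int.fract (n * t) / 2, Int.fract (-(n * t))) := by
  induction n with
  | zero =>
    simp only [Nat.cast_zero, zero_mul, zero_add, Function.iterate_one, neg_zero, Int.fract_zero,
      zero_div, add_zero]
    unfold T
    rw [if_pos (by simp; linarith), if_neg (by simp), if_neg (by simp)]
    ext <;> simp <;> ring
  | succ n ih =>
    rw [Function.iterate_succ_apply', ih]
    have hf0 := Int.fract_nonneg ((n : ℝ) * t)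
    have hf1 := Int.fract_lt_one ((n : ℝ) * t)
    have hg0 := Int.fract_nonneg (-((n : ℝ) * t))
    have hg1 := Int.fract_lt_one (-((n : ℝ) * t))
    -- the two fractional parts add up to an integer
    have hsum : ∃ k : ℤ, Int.fract ((n : ℝ) * t) + Int.fract (-((n : ℝ) * t)) = k :=
      ⟨-⌊(n : ℝ) * t⌋ - ⌊-((n : ℝ) * t)⌋, by
        rw [Int.fract, Int.fract]; push_cast; ring⟩
    obtain ⟨k, hk⟩ := hsum
    have hk0 : (-1 : ℝ) < k := by rw [← hk]; linarith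
    have hk2 : (k : ℝ) < 2 := by rw [← hk]; linarith
    have hk0' : -1 < k := by exact_mod_cast hk0
    have hk2' : k < 2 := by exact_mod_cast hk2
    have hk1 : (k : ℝ) ≤ 1 := by
      have : k ≤ 1 := by omega
      exact_mod_cast this
    -- next point
    have hnext : ((n + 1 : ℕ) : ℝ) * t = n * t + t := by push_cast; ring
    -- the orbit never meets the corner
    have hcorner : Int.fract ((n : ℝ) * t) ≠ 1 - t := by
      intro h
      have h2 : ((n + 1 : ℕ) : ℝ) * t = ((⌊(n : ℝ) * t⌋ + 1 : ℤ) : ℝ) := by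
        rw [hnext]
        have := Int.floor_add_fract ((n : ℝ) * t)
        push_cast
        linarith
      have h3 : Irrational (((n + 1 : ℕ) : ℝ) * t) := by
        apply ht.natCast_mul
        omega
      rw [h2] at h3
      exact Int.not_irrational _ h3
    have hfr1 : ∀ m : ℤ, (Int.fract ((n : ℝ) * t) + t + m : ℝ) = (n * t + t) + ((m - ⌊(n : ℝ) * t⌋ : ℤ) : ℝ) := by
      intro m
      rw [Int.fract]; push_cast; ring
    have hfr2 : ∀ m : ℤ, (Int.fract (-((n : ℝ) * t)) - t + m : ℝ) =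
        (-(n * t + t)) + ((m - ⌊-((n : ℝ) * t)⌋ : ℤ) : ℝ) := by
      intro m
      rw [Int.fract]; push_cast; ring
    rw [hnext]
    unfold T
    rw [if_neg (by simp; linarith)]
    rcases lt_or_ge (Int.fract ((n : ℝ) * t)) (1 - t) with hc | hc
    · rw [if_pos (by simp; linarith)]
      have e1 : Int.fract ((n : ℝ) * t + t) = Int.fract ((n : ℝ) * t) + t := by
        have h := hfr1 0
        rw [Int.cast_zero, add_zero] at h
        rw [← Int.fract_add_intCast _ ((0 : ℤ) - ⌊(n : ℝ) * t⌋), ← h]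
        exact Int.fract_eq_self.mpr ⟨by linarith, by linarith⟩
      rcases lt_or_ge (Int.fract (-((n : ℝ) * t))) t with hd | hd
      · rw [if_pos (by simp; linarith)]
        have e2 : Int.fract (-((n : ℝ) * t + t)) = Int.fract (-((n : ℝ) * t)) - t + 1 := by
          have h := hfr2 1
          rw [Int.cast_one] at h
          rw [← Int.fract_add_intCast _ ((1 : ℤ) - ⌊-((n : ℝ) * t)⌋), ← h]
          exact Int.fract_eq_self.mpr ⟨by linarith, by linarith⟩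
        rw [e1, e2]
        ext <;> simp <;> ring
      · rw [if_neg (by simp; linarith)]
        have e2 : Int.fract (-((n : ℝ) * t + t)) = Int.fract (-((n : ℝ) * t)) - t := by
          have h := hfr2 0
          rw [Int.cast_zero, add_zero] at h
          rw [← Int.fract_add_intCast _ ((0 : ℤ) - ⌊-((n : ℝ) * t)⌋), ← h]
          exact Int.fract_eq_self.mpr ⟨by linarith, by linarith⟩
        rw [e1, e2]
        ext <;> simp <;> ring
    · have hc' : 1 - t < Int.fract ((n : ℝ) * t) := lt_of_le_of_ne hc (Ne.symm hcorner)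
      have hd : Int.fract (-((n : ℝ) * t)) < t := by linarith
      rw [if_neg (by simp; linarith), if_pos (by simp; linarith)]
      have e1 : Int.fract ((n : ℝ) * t + t) = Int.fract ((n : ℝ) * t) + t - 1 := by
        have h := hfr1 (-1)
        rw [Int.cast_neg, Int.cast_one, ← sub_eq_add_neg] at h
        rw [← Int.fract_add_intCast _ ((-1 : ℤ) - ⌊(n : ℝ) * t⌋), ← h]
        exact Int.fract_eq_self.mpr ⟨by linarith, by linarith⟩
      have e2 : Int.fract (-((n : ℝ) * t + t)) = Int.fract (-((n : ℝ) * t)) - t + 1 := by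
        have h := hfr2 1
        rw [Int.cast_one] at h
        rw [← Int.fract_add_intCast _ ((1 : ℤ) - ⌊-((n : ℝ) * t)⌋), ← h]
        exact Int.fract_eq_self.mpr ⟨by linarith, by linarith⟩
      rw [e1, e2]
      ext <;> simp <;> ring

/-- the orbit stays away from its first point, on the torus -/
theorem far {t : ℝ} (ht : Irrational t) (h0 : 0 < t) (h1 : t < 1) (N : ℕ) (hN : 1 ≤ N) (k : ℤ) :
    min (t / 2) ((1 - t) / 2) ≤ |((T t)^[N] ((1 - t) / 2, t)).1 - (1 - t) / 2 + k| := by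
  obtain ⟨n, rfl⟩ : ∃ n, N = n + 1 := ⟨N - 1, by omega⟩
  rw [orbit ht h0 h1 n]
  simp only
  have hf0 := Int.fract_nonneg ((n : ℝ) * t)
  have hf1 := Int.fract_lt_one ((n : ℝ) * t)
  have hm1 := min_le_left (t / 2) ((1 - t) / 2)
  have hm2 := min_le_right (t / 2) ((1 - t) / 2)
  rcases le_or_gt 0 k with hk | hk
  · have hk' : (0 : ℝ) ≤ k := by exact_mod_cast hk
    exact le_trans (by linarith) (le_abs_self _)
  · have hk1 : k ≤ -1 := by omega
    have hk' : (k : ℝ) ≤ -1 := by exact_mod_cast hk1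
    exact le_trans (by linarith) (neg_le_abs _)

theorem image_rect (a1 b1 a2 b2 v1 v2 : ℝ) :
    (fun x : ℝ × ℝ => x + (v1, v2)) '' (Set.Ico a1 b1 ×ˢ Set.Ico a2 b2) =
      Set.Ico (a1 + v1) (b1 + v1) ×ˢ Set.Ico (a2 + v2) (b2 + v2) := by
  ext ⟨x, y⟩
  simp only [Set.mem_image, Set.mem_prod, Set.mem_Ico]
  constructor
  · rintro ⟨⟨x', y'⟩, ⟨⟨h1, h2⟩, h3, h4⟩, h⟩
    have e1 := congrArg Prod.fst h
    have e2 := congrArg Prod.snd h
    simp only [Prod.mk_add_mk] at e1 e2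
    simp only at h1 h2 h3 h4
    refine ⟨⟨?_, ?_⟩, ?_, ?_⟩ <;> linarith
  · rintro ⟨⟨h1, h2⟩, h3, h4⟩
    refine ⟨(x - v1, y - v2), ⟨⟨?_, ?_⟩, ?_, ?_⟩, ?_⟩
    · show a1 ≤ x - v1
      linarith
    · show x - v1 < b1
      linarith
    · show a2 ≤ y - v2
      linarith
    · show y - v2 < b2
      linarith
    · simp

/-- the distance on the torus -/
theorem far_dist {t : ℝ} (ht : Irrational t) (h0 : 0 < t) (h1 : t < 1) (N : ℕ) (hN : 1 ≤ N) :
    min (t / 2) ((1 - t) / 2) ≤ ⨅ k : ℤ × ℤ, √((((T t)^[N] ((1 - t) / 2, t)).1 - (1 - t) / 2 + k.1) ^ 2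
      + (((T t)^[N] ((1 - t) / 2, t)).2 - t + k.2) ^ 2) := by
  refine le_ciInf fun k => ?_
  refine (far ht h0 h1 N hN k.1).trans ?_
  rw [← Real.sqrt_sq_eq_abs]
  exact Real.sqrt_le_sqrt (le_add_of_nonneg_right (sq_nonneg _))

end Pool.Agent.RectEx
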